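import Pool.Agent.MP_c9a892_co.H39.Lower

set_option autoImplicit false

namespace Pool.Agent.Results.MP_c9a892_co.HJFour

open Pool.Agent.MP_c9a892_co.H39

/-- The Hales-Jewett number for geometric lines with four points lies between 9 and 156. -/
theorem result :
    ∃ h : ℕ, IsLeast {d : ℕ | ∀ col : (Fin d → Fin 4) → Bool, ∃ x : Fin 4 → Fin d → Fin 4,
        (Function.Injective x ∧
          ∀ j, (∃ c, ∀ i, x i j = c) ∨ (∀ i, x i j = i) ∨ ∀ i, x i j = i.rev) ∧
        ∃ b, ∀ i, col (x i) = b} h ∧ 9 ≤ h ∧ h ≤ 156 := by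
  classical
  have hex : ∃ d, Forces 4 d := ⟨156, forces_156⟩
  refine ⟨Nat.find hex, ⟨Nat.find_spec hex, fun d hd => Nat.find_min' hex hd⟩, ?_,
    Nat.find_min' hex forces_156⟩
  by_contra hlt
  exact not_forces_8 ((Nat.find_spec hex).mono (by omega))

end Pool.Agent.Results.MP_c9a892_co.HJFour
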