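import Pool.Agent.MP_c9a892_co.H12.Cube

set_option autoImplicit false

namespace Pool.Agent.Results.MP_c9a892_co.RareExtraMove

open Pool.Agent.MP_c9a892_co.H12

/-- With one extra move after every `m` rounds, `m` up to doubly exponential in `n`, the first
player wins the game on `[n]^d` for all `d` above any fixed fraction of the Hales-Jewett number. -/
theorem result : ∀ ε : ℝ, 0 < ε → ∃ n₀ : ℕ, ∀ n ≥ n₀, ∀ h : ℕ,
    (∀ col : (Fin h → Fin n) → Bool,
      ∃ x : Fin n → Fin h → Fin n, IsLine x ∧ ∃ b, ∀ i, col (x i) = b) →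
    ∀ d : ℕ, ε * h ≤ d → ∀ m ≤ 2 ^ 2 ^ (n / 5), Win (HasLine (n := n) (d := d)) m ∅ ∅ :=
  sparse

end Pool.Agent.Results.MP_c9a892_co.RareExtraMove
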