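import Pool.Agent.MP_c9a892_co.H41.Main

set_option autoImplicit false

namespace Pool.Agent.Results.MP_c9a892_co.SharpThreshold

open Pool.Agent.MP_c9a892_co.H41

/-- The passage from strong draw to weak win in the game on `[n]^d` takes place at
`d = (log 2 / 2 + o(1)) n ^ 2 / log n`. -/
theorem result : ∀ ε : ℝ, 0 < ε → ∃ n₀ : ℕ, ∀ n ≥ n₀, ∀ d : ℕ,
    ((d : ℝ) ≤ (1 - ε) * (Real.log 2 / 2 * n ^ 2 / Real.log n) →
      ∀ K, ¬ Win (HasLine (n := n) (d := d)) K ∅ ∅ true) ∧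
    ((1 + ε) * (Real.log 2 / 2 * n ^ 2 / Real.log n) ≤ d →
      Win (HasLine (n := n) (d := d)) (fun _ => False) ∅ ∅ true) := by
  intro ε hε
  obtain ⟨a, ha⟩ := strong_draw ε hε
  obtain ⟨b, hb⟩ := weak_win ε hε
  exact ⟨a + b, fun n hn d => ⟨ha n (by omega) d, hb n (by omega) d⟩⟩

end Pool.Agent.Results.MP_c9a892_co.SharpThreshold
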